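import Pool.Agent.Helper96.QT.Def
import Pool.Agent.H62.Gam

/-!
QT5a: differentiability and decay of the Gamma factors with the Gaussian.
-/

namespace Pool.Agent.QT

open Real Filter Topology MeasureTheory Set DirichletCharacter

private lemma gr_diff {s : ℂ} (hs : 0 < s.re) : DifferentiableAt ℂ Complex.Gammaℝ s := by
  have h1 : Complex.Gammaℝ s ≠ 0 := Complex.Gammaℝ_ne_zero_of_re_pos hs
  have h2 := (Complex.differentiable_Gammaℝ_inv s).inv (inv_ne_zero h1)
  have h3 : (fun s => (Complex.Gammaℝ s)⁻¹)⁻¹ = Complex.Gammaℝ := by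
    funext t
    simp
  rwa [h3] at h2

private lemma inv_comp (c : ℂ) (z : ℂ) : DifferentiableAt ℂ (fun z : ℂ => (Complex.Gammaℝ (c - z))⁻¹) z := by
  have h1 : DifferentiableAt ℂ (fun z : ℂ => c - z) z := by fun_prop
  exact DifferentiableAt.comp z (g := fun s => (Complex.Gammaℝ s)⁻¹) (f := fun z : ℂ => c - z)
    (Complex.differentiable_Gammaℝ_inv _) h1

private lemma gr_comp (c : ℂ) {z : ℂ} (h : 0 < (c + z).re) :
    DifferentiableAt ℂ (fun z : ℂ => Complex.Gammaℝ (c + z)) z := by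
  have h1 : DifferentiableAt ℂ (fun z : ℂ => c + z) z := by fun_prop
  exact DifferentiableAt.comp z (g := Complex.Gammaℝ) (f := fun z : ℂ => c + z) (gr_diff h) h1

theorem SS_diff (ev : Bool) (d : ℝ) {z : ℂ} (hz : |z.re| ≤ 1) : DifferentiableAt ℂ (SS ev d) z := by
  have h := abs_le.mp hz
  have e1 : DifferentiableAt ℂ (fun z : ℂ => Complex.exp ((d : ℂ) ^ 2 * z ^ 2 / 2)) z := by fun_prop
  have hp1 : DifferentiableAt ℂ (fun z : ℂ => (1 / 2 : ℂ) - z) z := by fun_prop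
  have hp2 : DifferentiableAt ℂ (fun z : ℂ => (1 / 2 : ℂ) + z) z := by fun_prop
  cases ev
  · have h2 : SS false d = fun z : ℂ => Complex.exp ((d : ℂ) ^ 2 * z ^ 2 / 2) *
        ((1 / 2 + z) * Complex.Gammaℝ (3 / 2 + z) * (1 / 2 - z) * (Complex.Gammaℝ (3 / 2 - z))⁻¹) := by
      funext z
      simp [SS]
    rw [h2]
    exact e1.mul (((hp2.mul (gr_comp (3 / 2) (by
      have : ((3 / 2 : ℂ) + z).re = 3 / 2 + z.re := by simp
      rw [this]; linarith))).mul hp1).mul (inv_comp (3 / 2) z))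
  · have h2 : SS true d = fun z : ℂ => Complex.exp ((d : ℂ) ^ 2 * z ^ 2 / 2) *
        (2 * π * Complex.Gammaℝ (5 / 2 + z) * (1 / 2 - z) * (Complex.Gammaℝ (1 / 2 - z))⁻¹) := by
      funext z
      simp [SS]
    rw [h2]
    exact e1.mul ((((gr_comp (5 / 2) (by
      have : ((5 / 2 : ℂ) + z).re = 5 / 2 + z.re := by simp
      rw [this]; linarith)).const_mul (2 * (π : ℂ))).mul hp1).mul (inv_comp (1 / 2) z))

private lemma gam_up {x : ℝ} (h1 : 1 / 4 ≤ x) (h2 : x ≤ 9 / 4) : Real.Gamma x ≤ 4 := by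
  rcases le_total x 1 with h | h
  · refine (Pool.Agent.H62.Gamma_le_inv (by linarith) h).trans ?_
    rw [div_le_iff₀ (by linarith)]
    linarith
  · rcases le_total x 2 with h' | h'
    · exact (Pool.Agent.H62.Gamma_le_one h h').trans (by norm_num)
    · have h3 : Real.Gamma x = (x - 1) * Real.Gamma (x - 1) := by
        have := Real.Gamma_add_one (s := x - 1) (by linarith)
        rwa [sub_add_cancel] at this
      have h4 := Pool.Agent.H62.Gamma_le_one (x := x - 1) (by linarith) (by linarith)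
      have h5 : 0 < Real.Gamma (x - 1) := Real.Gamma_pos_of_pos (by linarith)
      rw [h3]
      nlinarith

private lemma gr_up {s : ℂ} (h1 : 1 / 2 ≤ s.re) (h2 : s.re ≤ 7 / 2) : ‖Complex.Gammaℝ s‖ ≤ 4 := by
  rw [Complex.Gammaℝ_def, norm_mul, Complex.norm_cpow_eq_rpow_re_of_pos Real.pi_pos]
  have hre : (s / 2 : ℂ).re = s.re / 2 := by simp
  have hre2 : (-s / 2 : ℂ).re = -(s.re / 2) := by simp; ring
  rw [hre2]
  have h3 : ‖Complex.Gamma (s / 2)‖ ≤ 4 := by
    refine (Pool.Agent.H62.norm_Gamma_le (by rw [hre]; linarith)).trans ?_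
    rw [hre]
    exact gam_up (by linarith) (by linarith)
  have h4 : π ^ (-(s.re / 2)) ≤ 1 := by
    apply Real.rpow_le_one_of_one_le_of_nonpos _ (by linarith)
    have := Real.pi_gt_three
    linarith
  have h5 : 0 ≤ π ^ (-(s.re / 2)) := by positivity
  calc π ^ (-(s.re / 2)) * ‖Complex.Gamma (s / 2)‖ ≤ 1 * 4 := by gcongr
    _ = 4 := by norm_num

/-- `1/Γ` in the strip away from the real line. -/
private lemma inv_gam {v : ℂ} (h1 : -(1 / 4) ≤ v.re) (h2 : v.re ≤ 5 / 4) (h3 : 1 / 2 ≤ |v.im|) :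
    ‖(Complex.Gamma v)⁻¹‖ ≤ 8 * Real.exp (π * |v.im|) := by
  have hrefl := Complex.Gamma_mul_Gamma_one_sub v
  have him0 : v.im ≠ 0 := by
    intro h
    rw [h, abs_zero] at h3
    linarith
  have hv1 : (1 - v) ≠ 0 := by
    intro h
    have := congrArg Complex.im h
    simp at this
    exact him0 this
  have hG : Complex.Gamma (1 - v) = Complex.Gamma (2 - v) / (1 - v) := by
    rw [eq_div_iff hv1, mul_comm, ← Complex.Gamma_add_one _ hv1]
    congr 1
    ring
  have hre : (2 - v).re = 2 - v.re := by simp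
  have hG2 : ‖Complex.Gamma (2 - v)‖ ≤ 4 := by
    refine (Pool.Agent.H62.norm_Gamma_le (by rw [hre]; linarith)).trans ?_
    rw [hre]
    exact gam_up (by linarith) (by linarith)
  have hn1 : 1 / 2 ≤ ‖1 - v‖ := by
    refine h3.trans ?_
    have := Complex.abs_im_le_norm (1 - v)
    simpa using this
  have hG1 : ‖Complex.Gamma (1 - v)‖ ≤ 8 := by
    rw [hG, norm_div, div_le_iff₀ (by linarith)]
    linarith
  have hsin : ‖Complex.sin (π * v)‖ ≤ Real.exp (π * |v.im|) := by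
    refine (Pool.Agent.H62.norm_sin_le _).trans (le_of_eq ?_)
    have : (π * v : ℂ).im = π * v.im := by simp
    rw [this, abs_mul, abs_of_pos Real.pi_pos]
  have hG0 : Complex.Gamma (1 - v) ≠ 0 := by
    rw [hG]
    exact div_ne_zero (Complex.Gamma_ne_zero_of_re_pos (by rw [hre]; linarith)) hv1
  have hG3 : Complex.Gamma v ≠ 0 := by
    apply Complex.Gamma_ne_zero
    intro m h
    apply him0
    rw [h]
    simp
  have hsin0 : Complex.sin (π * v) ≠ 0 := by
    intro h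
    rw [h, div_zero] at hrefl
    exact mul_ne_zero hG3 hG0 hrefl
  have h4 : (Complex.Gamma v)⁻¹ = Complex.sin (π * v) * Complex.Gamma (1 - v) / π := by
    have hpi : (π : ℂ) ≠ 0 := by exact_mod_cast Real.pi_pos.ne'
    rw [eq_div_iff hsin0] at hrefl
    rw [eq_div_iff hpi]
    calc (Complex.Gamma v)⁻¹ * (π : ℂ) =
          (Complex.Gamma v)⁻¹ * (Complex.Gamma v * Complex.Gamma (1 - v) * Complex.sin (π * v)) := by rw [hrefl]
      _ = Complex.sin (π * v) * Complex.Gamma (1 - v) := by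
          rw [mul_assoc, inv_mul_cancel_left₀ hG3, mul_comm]
  rw [h4, norm_div, norm_mul, Complex.norm_real, Real.norm_eq_abs, abs_of_pos Real.pi_pos,
    div_le_iff₀ Real.pi_pos]
  have hpi := Real.pi_gt_three
  have h5 : 0 < Real.exp (π * |v.im|) := Real.exp_pos _
  calc ‖Complex.sin (π * v)‖ * ‖Complex.Gamma (1 - v)‖ ≤ Real.exp (π * |v.im|) * 8 := by gcongr
    _ = 8 * Real.exp (π * |v.im|) * 1 := by ring
    _ ≤ _ := by gcongr; linarith

private lemma inv_gr {s : ℂ} (h1 : -(1 / 2) ≤ s.re) (h2 : s.re ≤ 5 / 2) (h3 : 1 ≤ |s.im|) :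
    ‖(Complex.Gammaℝ s)⁻¹‖ ≤ 128 * Real.exp (2 * |s.im|) := by
  rw [Complex.Gammaℝ_def, mul_inv, norm_mul, norm_inv, Complex.norm_cpow_eq_rpow_re_of_pos Real.pi_pos]
  have hre : (s / 2 : ℂ).re = s.re / 2 := by simp
  have him : (s / 2 : ℂ).im = s.im / 2 := by simp
  have hre2 : (-s / 2 : ℂ).re = -(s.re / 2) := by simp; ring
  rw [hre2, Real.rpow_neg Real.pi_pos.le, inv_inv]
  have hpi := Real.pi_gt_three
  have hpi4 : π ≤ 4 := Real.pi_le_four
  have h4 : π ^ (s.re / 2) ≤ 16 := by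
    calc π ^ (s.re / 2) ≤ π ^ (2 : ℝ) := by
          apply Real.rpow_le_rpow_of_exponent_le (by linarith)
          linarith
      _ = π ^ 2 := by norm_num
      _ ≤ 16 := by nlinarith
  have h5 : 0 ≤ π ^ (s.re / 2) := by positivity
  have h6 := inv_gam (v := s / 2) (by rw [hre]; linarith) (by rw [hre]; linarith)
    (by rw [him, abs_div, abs_of_pos (by norm_num : (0:ℝ) < 2)]; linarith)
  have h7 : Real.exp (π * |(s / 2 : ℂ).im|) ≤ Real.exp (2 * |s.im|) := by
    apply Real.exp_le_exp.mpr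
    rw [him, abs_div, abs_of_pos (by norm_num : (0:ℝ) < 2)]
    have := abs_nonneg s.im
    nlinarith
  calc π ^ (s.re / 2) * ‖(Complex.Gamma (s / 2))⁻¹‖ ≤ 16 * (8 * Real.exp (2 * |s.im|)) := by
        gcongr
        exact h6.trans (by gcongr)
    _ = _ := by ring

private lemma norm_lin_le {c : ℂ} (hc : ‖c‖ ≤ 1 / 2) {z : ℂ} (hz : |z.re| ≤ 1) :
    ‖c - z‖ ≤ 2 * Real.exp |z.im| ∧ ‖c + z‖ ≤ 2 * Real.exp |z.im| := by
  have h1 := Complex.norm_le_abs_re_add_abs_im z
  have h2 : |z.im| + 1 ≤ Real.exp |z.im| := Real.add_one_le_exp _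
  have h3 := norm_sub_le c z
  have h4 := norm_add_le c z
  have h5 := abs_nonneg z.im
  constructor <;> linarith

private lemma norm_gauss {d : ℝ} {z : ℂ} (hz : |z.re| ≤ 1) :
    ‖Complex.exp ((d : ℂ) ^ 2 * z ^ 2 / 2)‖ ≤ Real.exp (d ^ 2 / 2) * Real.exp (-(d ^ 2 * |z.im| ^ 2 / 2)) := by
  rw [Complex.norm_exp, ← Real.exp_add]
  apply Real.exp_le_exp.mpr
  have h1 : ((d : ℂ) ^ 2 * z ^ 2 / 2).re = d ^ 2 * (z.re ^ 2 - z.im ^ 2) / 2 := by
    have h2 : ((d : ℂ) ^ 2 * z ^ 2 / 2) = ((d ^ 2 / 2 : ℝ) : ℂ) * z ^ 2 := by push_cast; ring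
    rw [h2, Complex.re_ofReal_mul]
    have h3 : (z ^ 2).re = z.re ^ 2 - z.im ^ 2 := by
      rw [pow_two, Complex.mul_re]; ring
    rw [h3]
    ring
  rw [h1, sq_abs]
  have h2 : z.re ^ 2 ≤ 1 := by
    rw [← sq_abs]
    have := abs_nonneg z.re
    nlinarith
  have h3 : 0 ≤ d ^ 2 := sq_nonneg d
  nlinarith

private lemma gauss_kill {d : ℝ} (hd : 0 < d) (y : ℝ) :
    Real.exp (-(d ^ 2 * y ^ 2 / 2)) * Real.exp (4 * y) ≤ Real.exp (25 / (2 * d ^ 2)) * Real.exp (-y) := by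
  rw [← Real.exp_add, ← Real.exp_add]
  apply Real.exp_le_exp.mpr
  have h1 : 0 < d ^ 2 := by positivity
  have h2 : 0 ≤ (d * y - 5 / d) ^ 2 := sq_nonneg _
  have h3 : (d * y - 5 / d) ^ 2 = d ^ 2 * y ^ 2 - 10 * y + 25 / d ^ 2 := by
    field_simp
    ring
  have h4 : 25 / (2 * d ^ 2) = 25 / d ^ 2 / 2 := by field_simp
  rw [h4]
  linarith

theorem SS_bound (ev : Bool) {d : ℝ} (hd : 0 < d) : ∃ c : ℝ, ∀ z : ℂ, |z.re| ≤ 1 →
    ‖SS ev d z‖ ≤ c * Real.exp (-|z.im|) := by
  -- the compact part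
  have hK : IsCompact ((Icc (-1 : ℝ) 1) ×ℂ (Icc (-1 : ℝ) 1)) := isCompact_Icc.reProdIm isCompact_Icc
  have hcont : ContinuousOn (SS ev d) ((Icc (-1 : ℝ) 1) ×ℂ (Icc (-1 : ℝ) 1)) := by
    intro z hz
    rw [Complex.mem_reProdIm] at hz
    exact (SS_diff ev d (abs_le.mpr ⟨hz.1.1, hz.1.2⟩)).continuousAt.continuousWithinAt
  obtain ⟨c₁, hc₁⟩ := hK.exists_bound_of_continuousOn hcont
  set c₂ : ℝ := 16384 * Real.exp (d ^ 2 / 2) * Real.exp (25 / (2 * d ^ 2)) with hc₂
  have hc₂0 : 0 < c₂ := by positivity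
  refine ⟨|c₁| * Real.exp 1 + c₂, fun z hz => ?_⟩
  have hE := Real.exp_pos (-|z.im|)
  rcases le_total |z.im| 1 with h | h
  · have h1 : ‖SS ev d z‖ ≤ |c₁| := by
      refine (hc₁ z ?_).trans (le_abs_self _)
      rw [Complex.mem_reProdIm]
      exact ⟨⟨(abs_le.mp hz).1, (abs_le.mp hz).2⟩, ⟨(abs_le.mp h).1, (abs_le.mp h).2⟩⟩
    have h2 : 1 ≤ Real.exp 1 * Real.exp (-|z.im|) := by
      rw [← Real.exp_add]
      apply Real.one_le_exp
      linarith
    calc ‖SS ev d z‖ ≤ |c₁| * 1 := by rw [mul_one]; exact h1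
      _ ≤ |c₁| * (Real.exp 1 * Real.exp (-|z.im|)) := by gcongr
      _ ≤ _ := by nlinarith
  · have hh := abs_le.mp hz
    have hg := norm_gauss (d := d) hz
    have hlin := norm_lin_le (c := 1 / 2) (by norm_num) hz
    have hkill := gauss_kill hd |z.im|
    have e4 : Real.exp (4 * |z.im|) = Real.exp |z.im| * Real.exp |z.im| * Real.exp (2 * |z.im|) := by
      rw [← Real.exp_add, ← Real.exp_add]
      congr 1
      ring
    have e3 : Real.exp |z.im| * Real.exp (2 * |z.im|) ≤ Real.exp (4 * |z.im|) := by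
      rw [← Real.exp_add]
      apply Real.exp_le_exp.mpr
      have := abs_nonneg z.im
      linarith
    have hpi4 : π ≤ 4 := Real.pi_le_four
    -- the Gamma part
    have hgam : ‖(if ev = true then 2 * (π : ℂ) * Complex.Gammaℝ (5 / 2 + z) * (1 / 2 - z) * (Complex.Gammaℝ (1 / 2 - z))⁻¹
      else (1 / 2 + z) * Complex.Gammaℝ (3 / 2 + z) * (1 / 2 - z) * (Complex.Gammaℝ (3 / 2 - z))⁻¹)‖ ≤
        16384 * Real.exp (4 * |z.im|) := by
      cases ev
      · simp only [Bool.false_eq_true, if_false]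
        have g1 := gr_up (s := 3 / 2 + z) (by simp; linarith) (by simp; linarith)
        have g2 := inv_gr (s := 3 / 2 - z) (by simp; linarith) (by simp; linarith) (by simpa using h)
        have him : |(3 / 2 - z : ℂ).im| = |z.im| := by simp
        rw [him] at g2
        rw [norm_mul, norm_mul, norm_mul]
        calc ‖1 / 2 + z‖ * ‖Complex.Gammaℝ (3 / 2 + z)‖ * ‖1 / 2 - z‖ * ‖(Complex.Gammaℝ (3 / 2 - z))⁻¹‖
            ≤ (2 * Real.exp |z.im|) * 4 * (2 * Real.exp |z.im|) * (128 * Real.exp (2 * |z.im|)) := by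
              gcongr
              · exact hlin.2
              · exact hlin.1
          _ = 2048 * Real.exp (4 * |z.im|) := by rw [e4]; ring
          _ ≤ _ := by gcongr; norm_num
      · simp only [if_true]
        have g1 := gr_up (s := 5 / 2 + z) (by simp; linarith) (by simp; linarith)
        have g2 := inv_gr (s := 1 / 2 - z) (by simp; linarith) (by simp; linarith) (by simpa using h)
        have him : |(1 / 2 - z : ℂ).im| = |z.im| := by simp
        rw [him] at g2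
        rw [norm_mul, norm_mul, norm_mul]
        have h2pi : ‖(2 * (π : ℂ))‖ ≤ 8 := by
          rw [norm_mul, Complex.norm_real, Real.norm_eq_abs, abs_of_pos Real.pi_pos]
          simp
          linarith
        calc ‖(2 * (π : ℂ))‖ * ‖Complex.Gammaℝ (5 / 2 + z)‖ * ‖1 / 2 - z‖ * ‖(Complex.Gammaℝ (1 / 2 - z))⁻¹‖
            ≤ 8 * 4 * (2 * Real.exp |z.im|) * (128 * Real.exp (2 * |z.im|)) := by
              gcongr
              exact hlin.1
          _ = 8192 * (Real.exp |z.im| * Real.exp (2 * |z.im|)) := by ring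
          _ ≤ 8192 * Real.exp (4 * |z.im|) := by gcongr
          _ ≤ _ := by gcongr; norm_num
    have hfin : ‖SS ev d z‖ ≤ c₂ * Real.exp (-|z.im|) := by
      unfold SS
      rw [norm_mul]
      calc _ ≤ (Real.exp (d ^ 2 / 2) * Real.exp (-(d ^ 2 * |z.im| ^ 2 / 2))) * (16384 * Real.exp (4 * |z.im|)) := by
            gcongr
        _ = 16384 * Real.exp (d ^ 2 / 2) * (Real.exp (-(d ^ 2 * |z.im| ^ 2 / 2)) * Real.exp (4 * |z.im|)) := by ring
        _ ≤ 16384 * Real.exp (d ^ 2 / 2) * (Real.exp (25 / (2 * d ^ 2)) * Real.exp (-|z.im|)) := by gcongr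
        _ = _ := by rw [hc₂]; ring
    calc ‖SS ev d z‖ ≤ c₂ * Real.exp (-|z.im|) := hfin
      _ ≤ _ := by
        have : 0 ≤ |c₁| * Real.exp 1 := by positivity
        nlinarith

end Pool.Agent.QT
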